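import Pool.Agent.helper11.RPQ.SpecT
import Pool.Agent.helper62.RS.All

set_option autoImplicit false

open scoped MatrixGroups ContDiff Topology UpperHalfPlane ComplexConjugate
open UpperHalfPlane MeasureTheory Filter Set

namespace Pool.Agent.RPQ

open Pool.Agent.RS
open Pool.Agent.MS (BA BB st pf gk Dk amk)

noncomputable section

/-- the parts of the mass -/
theorem QNW_parts (Γ : Subgroup SL(2, ℝ)) (F : Set ℍ) (h : ℍ → ℝ) (c φ : ℍ → ℂ) (w r : ℝ) (hΓ : QU.SurfaceGroup Γ)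
    (hF : QU.NiceDom Γ F) (hV : QU.Inv Γ h) (hc : TB w c) (hφ : InvC Γ φ) :
    iR F (fun g => (1 - h (g • I)) * ‖Wf (pk r c) φ g‖ ^ 2) = qn F c r φ - iR F (fun g => h (g • I) * ‖Wf (pk r c) φ g‖ ^ 2) ∧
    ∫ z in F, (1 - h z) * ‖φ z‖ ^ 2 = nn F φ - ∫ z in F, h z * ‖φ z‖ ^ 2 := by
  have hGFD := A_GFD
  have hGBD := A_GBD
  have hFL0 := A_FL0
  have hsmulc : Continuous fun g : SL(2, ℝ) => g • (I : ℍ) := continuous_id.smul continuous_const
  have hVG : InvG Γ (fun g : SL(2, ℝ) => h (g • I)) :=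
    ⟨hV.1.comp hsmulc, fun γ g => by
      simp only [mul_smul]
      exact hV.2 γ (g • I)⟩
  have hTst := hFL0.2.1 w r c hc
  have hpkc : Continuous (pk r c) :=
    ((QU.A_CA1 ℂ).1 _).mp ((QU.A_CA1 ℂ).2.1 _ 0 ∞ (by exact_mod_cast zero_le) hTst.1)
  have hWφ : InvG Γ (Wf (pk r c) φ) := hFL0.2.2 Γ (pk r c) φ hpkc hTst.2 hφ
  obtain ⟨⟨hdm, hdv, hdf, -⟩, hE⟩ := hGFD Γ F hΓ hF
  have : IsFiniteMeasure (mG.restrict (dG F)) := ⟨by
    rw [Measure.restrict_apply_univ]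
    exact hdf⟩
  have : IsFiniteMeasure ((volume : Measure ℍ).restrict F) := ⟨by
    rw [Measure.restrict_apply_univ, ← hdv]
    exact hdf⟩
  have hint : ∀ u : SL(2, ℝ) → ℝ, InvG Γ u → Integrable u (mG.restrict (dG F)) := by
    intro u hu
    obtain ⟨m, hm⟩ := (hGBD Γ ℝ u hΓ hu).1
    exact Integrable.of_bound hu.1.aestronglyMeasurable m (Eventually.of_forall hm)
  have hintF : ∀ u : ℍ → ℝ, Continuous u → (∀ (γ : Γ) (z : ℍ), u (γ • z) = u z) →
      Integrable u ((volume : Measure ℍ).restrict F) := by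
    intro u hu hu'
    have h1 : InvG Γ (fun g : SL(2, ℝ) => u (g • I)) :=
      ⟨hu.comp hsmulc, fun γ g => by
        simp only [mul_smul]
        exact hu' γ (g • I)⟩
    obtain ⟨m, hm⟩ := (hGBD Γ ℝ _ hΓ h1).1
    refine Integrable.of_bound hu.aestronglyMeasurable m (Eventually.of_forall fun z => ?_)
    have h2 := hm (toSL2R z)
    rwa [toSL2R_smul_I] at h2
  constructor
  · have hI0 : Integrable (fun g => ‖Wf (pk r c) φ g‖ ^ 2) (mG.restrict (dG F)) :=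
      hint _ ⟨hWφ.1.norm.pow 2, fun γ g => by simp only [hWφ.2]⟩
    have hIV : Integrable (fun g : SL(2, ℝ) => h (g • I) * ‖Wf (pk r c) φ g‖ ^ 2)
        (mG.restrict (dG F)) :=
      hint _ ⟨hVG.1.mul (hWφ.1.norm.pow 2), fun γ g => by
        have h1 := hVG.2 γ g
        simp only at h1
        simp only [hWφ.2, h1]⟩
    unfold qn iR
    rw [← integral_sub hI0 hIV]
    refine integral_congr_ae (Eventually.of_forall fun g => ?_)
    simp only
    ring
  · have hi0 : Integrable (fun z => ‖φ z‖ ^ 2) ((volume : Measure ℍ).restrict F) :=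
      hintF _ (hφ.1.norm.pow 2) fun γ z => by simp only [hφ.2]
    have hiV : Integrable (fun z => h z * ‖φ z‖ ^ 2) ((volume : Measure ℍ).restrict F) :=
      hintF _ (hV.1.mul (hφ.1.norm.pow 2)) fun γ z => by simp only [hφ.2, hV.2]
    unfold nn
    rw [← integral_sub hi0 hiV]
    refine integral_congr_ae (Eventually.of_forall fun z => ?_)
    simp only
    ring

theorem QNW_proof (hF1 : F1_stmt) (hCWB : CWB_stmt) (hACC : ACC_stmt) : QNW_stmt := by
  clear hCWB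
  intro Γ F α β η h hΓ hF hα hβ hη hη' hh hh01 e he
  have hh' : QU.Inv Γ (fun z => 1 - h z) := ⟨continuous_const.sub hh.1, fun γ z => by simp only [hh.2]⟩
  obtain ⟨wa, hwa, hQa⟩ := A_QNT Γ F h hΓ hF hh (fun z => (hh01 z).1) (fun z => (hh01 z).2) (e / 8) (by positivity)
  obtain ⟨wb, hwb, hQb⟩ := A_QNT Γ F (fun z => 1 - h z) hΓ hF hh' (fun z => by linarith [(hh01 z).2])
    (fun z => by linarith [(hh01 z).1]) (e / 8) (by positivity)
  obtain ⟨RF, hRF1, hRF⟩ := hF1 α β hα hβ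
  obtain ⟨CA, -, hCA⟩ := hACC 0 α β hα hβ
  have ev1 : ∀ᶠ x : ℝ in atTop, x ^ (-η) ≤ wa := (tendsto_rpow_neg_atTop hη).eventually_le_const hwa
  have ev2 : ∀ᶠ x : ℝ in atTop, x ^ (-η) ≤ wb := (tendsto_rpow_neg_atTop hη).eventually_le_const hwb
  have ev3 : ∀ᶠ x : ℝ in atTop, x ^ (-(1 / 40) : ℝ) ≤ min 1 (e / 8) :=
    (tendsto_rpow_neg_atTop (by norm_num : (0 : ℝ) < 1 / 40)).eventually_le_const (lt_min one_pos (by positivity))
  obtain ⟨R1, hR1⟩ := eventually_atTop.1 ((ev1.and ev2).and ev3)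
  refine ⟨max RF R1, le_max_of_le_left hRF1, ?_⟩
  intro R w φ hR hw1 hw0 hφ hlow
  have hR1' : 1 ≤ R := hRF1.trans ((le_max_left _ _).trans hR)
  have hR0 : 0 < R := by linarith
  obtain ⟨⟨g1, g2⟩, g3⟩ := hR1 R ((le_max_right _ _).trans hR)
  have g4 : R ^ (-(1 / 40) : ℝ) ≤ 1 := g3.trans (min_le_left _ _)
  have g5 : R ^ (-(1 / 40) : ℝ) ≤ e / 8 := g3.trans (min_le_right _ _)
  have g6 : 0 < R ^ (-(1 / 40) : ℝ) := Real.rpow_pos_of_pos hR0 _
  set l : ℝ := R ^ (-η) with hl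
  have hl0 : 0 < l := Real.rpow_pos_of_pos hR0 _
  have hl1 : l ≤ 1 := Real.rpow_le_one_of_one_le_of_nonpos hR1' (by linarith)
  have hl8 : R ^ (-(1 / 8) : ℝ) ≤ l := Real.rpow_le_rpow_of_exponent_le hR1' (by linarith)
  have hw0' : 0 < w := lt_of_lt_of_le (Real.rpow_pos_of_pos hR0 _) hw1
  have hwl : w ≤ l := by
    refine hw0.trans ?_
    exact Real.rpow_le_rpow_of_exponent_le hR1' (by linarith)
  obtain ⟨hAC, -, -⟩ := hCA w l hw0' hwl hl1
  have hTB : TB l (cw β α w l) := ⟨hAC.smooth, fun z hz => by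
    obtain ⟨h1, h2⟩ := hAC.supp z hz
    exact ⟨h1.trans hwl, h2⟩⟩
  -- the frame bound
  set q : ℝ := (1 + R ^ (-(1 / 40) : ℝ)) / R with hq
  have hq0 : 0 ≤ q := by positivity
  have hfr : ∀ u : ℍ → ℂ, InvC Γ u → qn F (cw β α w l) R u ≤ q * nn F u := by
    intro u hu
    have h1 := hRF Γ F R w l hΓ hF ((le_max_left _ _).trans hR) hw1 hw0 hl8 hl1 u hu
    rw [hq, div_mul_eq_mul_div, le_div_iff₀ hR0, mul_comm]
    exact h1
  have hA := hQa l (cw β α w l) R q hl0 g1 hTB hfr hq0 φ hφ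
  have hB := hQb l (cw β α w l) R q hl0 g2 hTB hfr hq0 φ hφ
  obtain ⟨p1, p2⟩ := QNW_parts Γ F h (cw β α w l) φ l R hΓ hF hh hTB hφ
  rw [p2] at hB
  rw [p1] at hB
  have hnn : 0 ≤ nn F φ := by
    unfold nn
    exact integral_nonneg fun z => by positivity
  have hm0 : 0 ≤ ∫ z in F, h z * ‖φ z‖ ^ 2 := integral_nonneg fun z => mul_nonneg (hh01 z).1 (by positivity)
  have hm1 : 0 ≤ nn F φ - ∫ z in F, h z * ‖φ z‖ ^ 2 := by
    rw [← p2]
    exact integral_nonneg fun z => mul_nonneg (by linarith [(hh01 z).2]) (by positivity)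
  have hRq : R * q = 1 + R ^ (-(1 / 40) : ℝ) := by
    rw [hq]
    field_simp
  set m : ℝ := ∫ z in F, h z * ‖φ z‖ ^ 2 with hm
  change |R * iR F (fun g => h (g • I) * ‖Wf (pk R (cw β α w l)) φ g‖ ^ 2) - m| ≤ e * nn F φ
  set X : ℝ := iR F (fun g => h (g • I) * ‖Wf (pk R (cw β α w l)) φ g‖ ^ 2) with hX
  have hA' : R * X ≤ (1 + R ^ (-(1 / 40) : ℝ)) * (m + e / 8 * nn F φ) := by
    have := mul_le_mul_of_nonneg_left hA hR0.le
    rwa [← mul_assoc, hRq] at this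
  have hB' : R * (qn F (cw β α w l) R φ - X) ≤ (1 + R ^ (-(1 / 40) : ℝ)) * (nn F φ - m + e / 8 * nn F φ) := by
    have := mul_le_mul_of_nonneg_left hB hR0.le
    rwa [← mul_assoc, hRq] at this
  set d : ℝ := R ^ (-(1 / 40) : ℝ) with hd
  have i1 : d * m ≤ e / 8 * nn F φ := by
    calc d * m ≤ e / 8 * m := mul_le_mul_of_nonneg_right g5 hm0
      _ ≤ e / 8 * nn F φ := mul_le_mul_of_nonneg_left (by linarith) (by positivity)
  have i2 : d * (nn F φ - m) ≤ e / 8 * nn F φ := by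
    calc d * (nn F φ - m) ≤ e / 8 * (nn F φ - m) := mul_le_mul_of_nonneg_right g5 hm1
      _ ≤ e / 8 * nn F φ := mul_le_mul_of_nonneg_left (by linarith) (by positivity)
  have i3 : d * (e / 8 * nn F φ) ≤ e / 8 * nn F φ := mul_le_of_le_one_left (by positivity) g4
  have i4 : 0 ≤ e * nn F φ := by positivity
  rw [abs_le]
  constructor
  · nlinarith
  · nlinarith

end

end Pool.Agent.RPQ
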