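import Pool.Agent.helper11.RPQ.SpecI
import Pool.Agent.helper11.RPQ.AVG

/-!
# Row rpi:AVL (MP_07c750_an): time averages, bounded Lipschitz potentials
-/

set_option autoImplicit false

open scoped MatrixGroups ContDiff Topology UpperHalfPlane ComplexConjugate
open UpperHalfPlane MeasureTheory Filter Set

namespace Pool.Agent.RPQ

open Pool.Agent.RS
open Pool.Agent.MS (BA BB st pf gk Dk amk)

theorem AVL_proof (hQNW : QNW_stmt) (hF1 : F1_stmt) (hF2 : F2_stmt) (hQPL : QPL_stmt) (hTRL : TRL_stmt) (hCWB : CWB_stmt) (hGLC : GLC_stmt) (hGFD : GFD_stmt) (hGBD : GBD_stmt)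
    (hGWB : GWB_stmt) (hCV1 : CV1_stmt) : AVL_stmt := by
  intro Γ F α β C0 η h hΓ hF hα hβ hC0 hη hη' hh h01 e he
  obtain ⟨R1, hR1, h1⟩ := hQPL Γ F C0 η hΓ hF hC0 hη hη'
  obtain ⟨δ2, R2, hδ2, hR2, h2⟩ := hF2 Γ F α β η hΓ hF hα hβ hη hη'
  obtain ⟨R3, hR3, h3⟩ := hF1 α β hα hβ
  obtain ⟨R4, hR4, h4⟩ := hQNW Γ F α β η h hΓ hF hα hβ hη hη' hh h01 (e / 3) (by positivity)
  obtain ⟨δ5, R5, hδ5, hR5, h5⟩ := hTRL Γ F α β C0 η hΓ hF hα hβ hC0 hη hη'
  have ht : ∀ (d x : ℝ), 0 < d → 0 < x → ∀ᶠ R : ℝ in atTop, R ^ (-d) ≤ x := by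
    intro d x hd hx
    exact ((tendsto_rpow_neg_atTop hd).eventually (gt_mem_nhds hx)).mono fun R hR => hR.le
  obtain ⟨R6, hR6⟩ := eventually_atTop.1 ((ht δ2 (min (e / 12) 1) hδ2 (by positivity)).and ((ht (1 / 40) (min e 1) (by norm_num) (by positivity)).and ((ht (δ5 / 2) (e / 15) (by positivity) (by positivity)).and
    ((eventually_ge_atTop R1).and ((eventually_ge_atTop R2).and ((eventually_ge_atTop R3).and ((eventually_ge_atTop R4).and (eventually_ge_atTop R5))))))))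
  refine ⟨max R6 2, le_trans (by norm_num) (le_max_right _ _), ?_⟩
  intro R ϵ t0 μ V φ hR hQ
  obtain ⟨k1, k2, k3, k4, k5, k6, k7, k8⟩ := hR6 R ((le_max_left _ _).trans hR)
  have hRR : 2 ≤ R := (le_max_right _ _).trans hR
  have hR0 : 0 < R := by linarith
  have hR1' : 1 ≤ R := by linarith
  obtain ⟨hφ, ψ, hψ, hlap, hψn, -⟩ := h1 R ϵ t0 μ V φ k4 hQ
  have hlogR : 0 < Real.log R := Real.log_pos (by linarith)
  have htau : 0 < tau R := by
    unfold tau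
    positivity
  have hw01 : w0 R ≤ 1 := Real.rpow_le_one_of_one_le_of_nonpos hR1' (by norm_num)
  have hw10 : 0 < w1 R := Real.rpow_pos_of_pos hR0 _
  have hw00 : 0 < w0 R := Real.rpow_pos_of_pos hR0 _
  have hw1t : w1 R = w0 R * Real.exp (-tau R) := by
    unfold w1 w0 tau
    rw [show -(Real.log R / 8) = Real.log R * (-(1 / 8)) by ring, ← Real.rpow_def_of_pos hR0, ← Real.rpow_add hR0]
    norm_num
  have hl0 : 0 < R ^ (-η) := Real.rpow_pos_of_pos hR0 _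
  have hl1 : R ^ (-η) ≤ 1 := Real.rpow_le_one_of_one_le_of_nonpos hR1' (by linarith)
  have hl2 : R ^ (-(1 / 8) : ℝ) ≤ R ^ (-η) := Real.rpow_le_rpow_of_exponent_le hR1' (by linarith)
  have hnn : 0 ≤ nn F φ := integral_nonneg fun z => by positivity
  -- frame bounds
  have hup : ∀ w : ℝ, w1 R ≤ w → w ≤ w0 R → R * qn F (cw β α w (R ^ (-η))) R φ ≤ (1 + R ^ (-(1 / 40) : ℝ)) * nn F φ := fun w g1 g2 =>
    h3 Γ F R w (R ^ (-η)) hΓ hF k6 g1 g2 hl2 hl1 φ hφ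
  have hlow : ∀ w : ℝ, w1 R ≤ w → w ≤ w0 R → (1 - R ^ (-δ2)) * nn F φ ≤ R * qn F (cw β α w (R ^ (-η))) R φ := fun w g1 g2 =>
    h2 R w φ ψ k5 g1 g2 hQ.eig.1 hφ hψ hlap hψn
  have hup2 : ∀ w : ℝ, w1 R ≤ w → w ≤ w0 R → R * iR F (fun g => ‖QQ β α w (R ^ (-η)) R φ g‖ ^ 2) ≤ 2 * nn F φ := by
    intro w g1 g2
    refine (hup w g1 g2).trans (mul_le_mul_of_nonneg_right ?_ hnn)
    linarith [k2.trans (min_le_right _ _)]
  have hw10' : w1 R ≤ w0 R := by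
    rw [hw1t]
    exact mul_le_of_le_one_right hw00.le (Real.exp_le_one_iff.2 (by linarith))
  -- the measure
  have hGF := (hGFD Γ F hΓ hF).1
  have hGT := ((hGFD Γ F hΓ hF).2 ℝ).1
  have hfin : IsFiniteMeasure (mG.restrict (dG F)) := ⟨by rw [Measure.restrict_apply_univ]; exact hGF.2.2.1⟩
  have hintc : ∀ u : SL(2, ℝ) → ℝ, InvG Γ u → Integrable u (mG.restrict (dG F)) := by
    intro u hu
    obtain ⟨m, hm⟩ := (hGBD Γ ℝ u hΓ hu).1
    exact Integrable.mono' (integrable_const m) hu.1.aestronglyMeasurable (Eventually.of_forall hm)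
  have haM : Continuous aM := hGLC.2.2.2.1
  -- the coefficients
  obtain ⟨q, hq⟩ : ∃ q : SL(2, ℝ) → ℂ, q = QQ β α (w0 R) (R ^ (-η)) R φ := ⟨_, rfl⟩
  have hqi : InvG Γ q := hq ▸ AVG_QQ hCWB hCV1 hGWB Γ hΓ α β (w0 R) _ R φ hα hβ hw00 hw01 hl0 hl1 hφ
  obtain ⟨mB, hmB⟩ := (hGBD Γ ℂ q hΓ hqi).1
  have hqsq : InvG Γ (fun g => ‖q g‖ ^ 2) := ⟨hqi.1.norm.pow 2, fun γ g => by
    show ‖q ((γ : SL(2, ℝ)) * g)‖ ^ 2 = ‖q g‖ ^ 2
    rw [hqi.2]⟩
  have hhq : ∀ t : ℝ, InvG Γ (fun g => h ((g * aM t) • I)) := fun t => ⟨hh.1.comp ((continuous_id.mul continuous_const).smul continuous_const), fun γ g => by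
    show h (((γ : SL(2, ℝ)) * g * aM t) • I) = h ((g * aM t) • I)
    rw [mul_assoc, mul_smul]
    exact hh.2 γ _⟩
  rw [← hq]
  -- one time
  have hone : ∀ t : ℝ, 0 ≤ t → t ≤ tau R → |R * iR F (fun g => h ((g * aM t) • I) * ‖q g‖ ^ 2) - ∫ z in F, h z * ‖φ z‖ ^ 2| ≤ 2 * e / 3 * nn F φ := by
    intro t ht0 ht1
    have hwt1 : w1 R ≤ w0 R * Real.exp (-t) := by
      rw [hw1t]
      exact mul_le_mul_of_nonneg_left (Real.exp_le_exp.2 (by linarith)) hw00.le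
    have hwt2 : w0 R * Real.exp (-t) ≤ w0 R := mul_le_of_le_one_right hw00.le (Real.exp_le_one_iff.2 (by linarith))
    have hwt0 : 0 < w0 R * Real.exp (-t) := by positivity
    obtain ⟨p, hp⟩ : ∃ p : SL(2, ℝ) → ℂ, p = QQ β α (w0 R * Real.exp (-t)) (R ^ (-η)) R φ := ⟨_, rfl⟩
    have hpi : InvG Γ p := hp ▸ AVG_QQ hCWB hCV1 hGWB Γ hΓ α β _ _ R φ hα hβ hwt0 (hwt2.trans hw01) hl0 hl1 hφ
    have hpt : InvG Γ (fun g => p (g * aM t)) := ⟨hpi.1.comp (continuous_id.mul continuous_const), fun γ g => by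
      show p ((γ : SL(2, ℝ)) * g * aM t) = p (g * aM t)
      rw [mul_assoc, hpi.2]⟩
    have hqn := h4 R (w0 R * Real.exp (-t)) φ k7 hwt1 hwt2 hφ (le_trans (mul_le_mul_of_nonneg_right (by linarith [k1.trans (min_le_left _ _)]) hnn) (hlow _ hwt1 hwt2))
    rw [← hp] at hqn
    have htr1 : iR F (fun g => h (g • I) * ‖p g‖ ^ 2) = iR F (fun g => h ((g * aM t) • I) * ‖p (g * aM t)‖ ^ 2) := by
      unfold iR
      refine (hGT (fun g => h (g • I) * ‖p g‖ ^ 2) (aM t) fun γ g => ?_).symm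
      show h (((γ : SL(2, ℝ)) * g) • I) * ‖p ((γ : SL(2, ℝ)) * g)‖ ^ 2 = h (g • I) * ‖p g‖ ^ 2
      rw [hpi.2, mul_smul]
      congr 1
      exact hh.2 γ _
    have htr2 : iR F (fun g => ‖p g‖ ^ 2) = iR F (fun g => ‖p (g * aM t)‖ ^ 2) := by
      unfold iR
      refine (hGT (fun g => ‖p g‖ ^ 2) (aM t) fun γ g => ?_).symm
      show ‖p ((γ : SL(2, ℝ)) * g)‖ ^ 2 = ‖p g‖ ^ 2
      rw [hpi.2]
    rw [htr1] at hqn
    -- transport
    have htn := h5 R ϵ t0 μ t V φ k8 hQ ht0 ht1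
    have hPT : ∀ g, PT β α (w0 R) (R ^ (-η)) R t φ g = Complex.exp (((R * t : ℝ) : ℂ) * Complex.I) * p (g * aM t) := fun g => by rw [hp]; rfl
    have hnPT : ∀ g, ‖PT β α (w0 R) (R ^ (-η)) R t φ g‖ = ‖p (g * aM t)‖ := fun g => by
      rw [hPT, norm_mul, Complex.norm_exp_ofReal_mul_I, one_mul]
    obtain ⟨y, hy⟩ : ∃ y : SL(2, ℝ) → ℂ, y = fun g => Complex.exp (-(((th V (R * ϵ / 2) t g : ℝ) : ℂ) * Complex.I)) * q g := ⟨_, rfl⟩
    have hny : ∀ g, ‖y g‖ = ‖q g‖ := fun g => by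
      rw [hy]
      show ‖Complex.exp (-(((th V (R * ϵ / 2) t g : ℝ) : ℂ) * Complex.I)) * q g‖ = ‖q g‖
      rw [norm_mul, show -(((th V (R * ϵ / 2) t g : ℝ) : ℂ) * Complex.I) = (((-th V (R * ϵ / 2) t g : ℝ) : ℂ) * Complex.I) by push_cast; ring, Complex.norm_exp_ofReal_mul_I, one_mul]
    obtain ⟨x, hx⟩ : ∃ x : SL(2, ℝ) → ℂ, x = fun g => PT β α (w0 R) (R ^ (-η)) R t φ g := ⟨_, rfl⟩
    have hxn : ∀ g, ‖x g‖ = ‖p (g * aM t)‖ := fun g => by rw [hx]; exact hnPT g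
    have htn' : R * iR F (fun g => ‖x g - y g‖ ^ 2) ≤ R ^ (-δ5) * nn F φ := by
      rw [hx, hy, hq]
      exact htn
    -- continuity
    have hthc : Continuous (th V (R * ϵ / 2) t) := by
      have g1 : Continuous (Function.uncurry fun (g : SL(2, ℝ)) (s : ℝ) => V ((g * aM s) • I)) :=
        hQ.inv.1.comp ((continuous_fst.mul (haM.comp continuous_snd)).smul continuous_const)
      have hlc := hGLC.1
      have hsc := hGLC.2.1
      exact continuous_const.mul (intervalIntegral.continuous_parametric_intervalIntegral_of_continuous' g1 0 t)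
    have hthi : ∀ (γ : Γ) (g : SL(2, ℝ)), th V (R * ϵ / 2) t ((γ : SL(2, ℝ)) * g) = th V (R * ϵ / 2) t g := by
      intro γ g
      unfold th
      congr 1
      refine intervalIntegral.integral_congr fun s _ => ?_
      show V (((γ : SL(2, ℝ)) * g * aM s) • I) = V ((g * aM s) • I)
      rw [mul_assoc, mul_smul]
      exact hQ.inv.2 γ _
    have hyi : InvG Γ y := by
      rw [hy]
      refine ⟨(Complex.continuous_exp.comp ((Complex.continuous_ofReal.comp hthc).mul continuous_const).neg).mul hqi.1, fun γ g => ?_⟩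
      show Complex.exp (-(((th V (R * ϵ / 2) t ((γ : SL(2, ℝ)) * g) : ℝ) : ℂ) * Complex.I)) * q ((γ : SL(2, ℝ)) * g) = _
      rw [hthi, hqi.2]
    have hxi : InvG Γ x := by
      rw [hx]
      refine ⟨?_, fun γ g => ?_⟩
      · have : (fun g => PT β α (w0 R) (R ^ (-η)) R t φ g) = fun g => Complex.exp (((R * t : ℝ) : ℂ) * Complex.I) * p (g * aM t) := funext hPT
        rw [this]
        exact continuous_const.mul hpt.1
      · show PT β α (w0 R) (R ^ (-η)) R t φ ((γ : SL(2, ℝ)) * g) = PT β α (w0 R) (R ^ (-η)) R t φ g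
        rw [hPT, hPT, mul_assoc, hpi.2]
    have hsqi : ∀ u : SL(2, ℝ) → ℂ, InvG Γ u → InvG Γ (fun g => ‖u g‖ ^ 2) := fun u hu => ⟨hu.1.norm.pow 2, fun γ g => by
      show ‖u ((γ : SL(2, ℝ)) * g)‖ ^ 2 = ‖u g‖ ^ 2
      rw [hu.2]⟩
    have hmuli : ∀ u v : SL(2, ℝ) → ℝ, InvG Γ u → InvG Γ v → InvG Γ (fun g => u g * v g) := fun u v hu hv => ⟨hu.1.mul hv.1, fun γ g => by
      show u ((γ : SL(2, ℝ)) * g) * v ((γ : SL(2, ℝ)) * g) = u g * v g
      rw [hu.2, hv.2]⟩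
    have hdi : InvG Γ (fun g => x g - y g) := ⟨hxi.1.sub hyi.1, fun γ g => by
      show x ((γ : SL(2, ℝ)) * g) - y ((γ : SL(2, ℝ)) * g) = x g - y g
      rw [hxi.2, hyi.2]⟩
    have hs : 0 < R ^ (-(δ5 / 2)) := Real.rpow_pos_of_pos hR0 _
    have hcmp : |iR F (fun g => h ((g * aM t) • I) * ‖x g‖ ^ 2) - iR F (fun g => h ((g * aM t) • I) * ‖y g‖ ^ 2)| ≤
        (R ^ (-(δ5 / 2)))⁻¹ / 2 * iR F (fun g => ‖x g - y g‖ ^ 2) + R ^ (-(δ5 / 2)) * (iR F (fun g => ‖x g‖ ^ 2) + iR F (fun g => ‖y g‖ ^ 2)) := by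
      have J1 : Integrable (fun g => h ((g * aM t) • I) * ‖x g‖ ^ 2) (mG.restrict (dG F)) := hintc _ (hmuli _ _ (hhq t) (hsqi _ hxi))
      have J2 : Integrable (fun g => h ((g * aM t) • I) * ‖y g‖ ^ 2) (mG.restrict (dG F)) := hintc _ (hmuli _ _ (hhq t) (hsqi _ hyi))
      have J3 : Integrable (fun g => (R ^ (-(δ5 / 2)))⁻¹ / 2 * ‖x g - y g‖ ^ 2) (mG.restrict (dG F)) := (hintc _ (hsqi _ hdi)).const_mul _
      have J4 : Integrable (fun g => R ^ (-(δ5 / 2)) * (‖x g‖ ^ 2 + ‖y g‖ ^ 2)) (mG.restrict (dG F)) := ((hintc _ (hsqi _ hxi)).add (hintc _ (hsqi _ hyi))).const_mul _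
      have J5 : Integrable (fun g => h ((g * aM t) • I) * ‖x g‖ ^ 2 - h ((g * aM t) • I) * ‖y g‖ ^ 2) (mG.restrict (dG F)) := J1.sub J2
      have J6 : Integrable (fun g => (R ^ (-(δ5 / 2)))⁻¹ / 2 * ‖x g - y g‖ ^ 2 + R ^ (-(δ5 / 2)) * (‖x g‖ ^ 2 + ‖y g‖ ^ 2)) (mG.restrict (dG F)) := J3.add J4
      unfold iR
      rw [← integral_sub J1 J2, ← integral_add (hintc _ (hsqi _ hxi)) (hintc _ (hsqi _ hyi)), ← integral_const_mul, ← integral_const_mul, ← integral_add J3 J4]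
      refine (abs_integral_le_integral_abs).trans (integral_mono J5.abs J6 fun g => ?_)
      show |h ((g * aM t) • I) * ‖x g‖ ^ 2 - h ((g * aM t) • I) * ‖y g‖ ^ 2| ≤ (R ^ (-(δ5 / 2)))⁻¹ / 2 * ‖x g - y g‖ ^ 2 + R ^ (-(δ5 / 2)) * (‖x g‖ ^ 2 + ‖y g‖ ^ 2)
      rw [← mul_sub, abs_mul, abs_of_nonneg (h01 _).1]
      exact (mul_le_of_le_one_left (abs_nonneg _) (h01 _).2).trans (AVG_sq (x g) (y g) _ hs)
    have hcmp' := mul_le_mul_of_nonneg_left hcmp hR0.le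
    rw [← abs_of_pos hR0, ← abs_mul, abs_of_pos hR0, mul_sub] at hcmp'
    have e1 : iR F (fun g => h ((g * aM t) • I) * ‖x g‖ ^ 2) = iR F (fun g => h ((g * aM t) • I) * ‖p (g * aM t)‖ ^ 2) := by
      unfold iR
      refine integral_congr_ae (Eventually.of_forall fun g => ?_)
      show h ((g * aM t) • I) * ‖x g‖ ^ 2 = h ((g * aM t) • I) * ‖p (g * aM t)‖ ^ 2
      rw [hxn]
    have e2 : iR F (fun g => h ((g * aM t) • I) * ‖y g‖ ^ 2) = iR F (fun g => h ((g * aM t) • I) * ‖q g‖ ^ 2) := by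
      unfold iR
      refine integral_congr_ae (Eventually.of_forall fun g => ?_)
      show h ((g * aM t) • I) * ‖y g‖ ^ 2 = h ((g * aM t) • I) * ‖q g‖ ^ 2
      rw [hny]
    have e3 : iR F (fun g => ‖x g‖ ^ 2) = iR F (fun g => ‖p g‖ ^ 2) := by
      rw [htr2]
      unfold iR
      refine integral_congr_ae (Eventually.of_forall fun g => ?_)
      show ‖x g‖ ^ 2 = ‖p (g * aM t)‖ ^ 2
      rw [hxn]
    have e4 : iR F (fun g => ‖y g‖ ^ 2) = iR F (fun g => ‖q g‖ ^ 2) := by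
      unfold iR
      refine integral_congr_ae (Eventually.of_forall fun g => ?_)
      show ‖y g‖ ^ 2 = ‖q g‖ ^ 2
      rw [hny]
    have u1 : R * iR F (fun g => ‖p g‖ ^ 2) ≤ 2 * nn F φ := by
      rw [hp]
      exact hup2 _ hwt1 hwt2
    have u2 : R * iR F (fun g => ‖q g‖ ^ 2) ≤ 2 * nn F φ := by
      rw [hq]
      exact hup2 _ hw10' le_rfl
    rw [e1, e2, e3, e4] at hcmp'
    have hrs : (R ^ (-(δ5 / 2)))⁻¹ * R ^ (-δ5) = R ^ (-(δ5 / 2)) := by
      rw [← Real.rpow_neg hR0.le, ← Real.rpow_add hR0]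
      ring_nf
    have v1 : R * ((R ^ (-(δ5 / 2)))⁻¹ / 2 * iR F (fun g => ‖x g - y g‖ ^ 2)) ≤ R ^ (-(δ5 / 2)) / 2 * nn F φ := by
      have g1 := mul_le_mul_of_nonneg_left htn' (inv_pos.2 hs).le
      rw [← mul_assoc _ (R ^ (-δ5)) (nn F φ), hrs] at g1
      have g2 : R * ((R ^ (-(δ5 / 2)))⁻¹ / 2 * iR F (fun g => ‖x g - y g‖ ^ 2)) = ((R ^ (-(δ5 / 2)))⁻¹ * (R * iR F (fun g => ‖x g - y g‖ ^ 2))) / 2 := by ring
      rw [g2]
      linarith
    have v2 : R * (R ^ (-(δ5 / 2)) * (iR F (fun g => ‖p g‖ ^ 2) + iR F (fun g => ‖q g‖ ^ 2))) ≤ R ^ (-(δ5 / 2)) * (4 * nn F φ) := by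
      have g2 : R * (R ^ (-(δ5 / 2)) * (iR F (fun g => ‖p g‖ ^ 2) + iR F (fun g => ‖q g‖ ^ 2))) = R ^ (-(δ5 / 2)) * (R * iR F (fun g => ‖p g‖ ^ 2) + R * iR F (fun g => ‖q g‖ ^ 2)) := by ring
      rw [g2]
      exact mul_le_mul_of_nonneg_left (by linarith) hs.le
    have v3 : R ^ (-(δ5 / 2)) * (5 * nn F φ) ≤ e / 15 * (5 * nn F φ) := mul_le_mul_of_nonneg_right k3 (by positivity)
    have v4 : 0 ≤ R ^ (-(δ5 / 2)) * nn F φ := mul_nonneg hs.le hnn
    have a1 := abs_le.1 hcmp'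
    have a2 := abs_le.1 hqn
    rw [mul_add] at a1
    rw [abs_le]
    constructor <;> linarith
  constructor
  · -- the average
    have hprod : Continuous (fun p : SL(2, ℝ) × ℝ => h ((p.1 * aM p.2) • I) * ‖q p.1‖ ^ 2) :=
      (hh.1.comp ((continuous_fst.mul (haM.comp continuous_snd)).smul continuous_const)).mul ((hqi.1.comp continuous_fst).norm.pow 2)
    have hIfin : IsFiniteMeasure ((volume : Measure ℝ).restrict (Ioc 0 (tau R))) := ⟨by rw [Measure.restrict_apply_univ, Real.volume_Ioc]; exact ENNReal.ofReal_lt_top⟩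
    have hpi : Integrable (fun p : SL(2, ℝ) × ℝ => h ((p.1 * aM p.2) • I) * ‖q p.1‖ ^ 2) ((mG.restrict (dG F)).prod ((volume : Measure ℝ).restrict (Ioc 0 (tau R)))) := by
      have hlc := hGLC.1
      have hsc := hGLC.2.1
      refine Integrable.mono' (integrable_const (mB ^ 2)) hprod.aestronglyMeasurable (Eventually.of_forall fun p => ?_)
      rw [norm_mul, Real.norm_eq_abs, abs_of_nonneg (h01 _).1, norm_pow, norm_norm]
      calc h ((p.1 * aM p.2) • I) * ‖q p.1‖ ^ 2 ≤ 1 * ‖q p.1‖ ^ 2 := mul_le_mul_of_nonneg_right (h01 _).2 (by positivity)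
        _ ≤ mB ^ 2 := by rw [one_mul]; exact pow_le_pow_left₀ (norm_nonneg _) (hmB _) 2
    have hsw : iR F (fun g => avh h (tau R) g * ‖q g‖ ^ 2) = (tau R)⁻¹ * ∫ t in (0 : ℝ)..tau R, iR F (fun g => h ((g * aM t) • I) * ‖q g‖ ^ 2) := by
      rw [intervalIntegral.integral_of_le htau.le]
      unfold iR
      rw [← integral_integral_swap hpi, ← integral_const_mul]
      refine integral_congr_ae (Eventually.of_forall fun g => ?_)
      show avh h (tau R) g * ‖q g‖ ^ 2 = (tau R)⁻¹ * ∫ t in Ioc 0 (tau R), h ((g * aM t) • I) * ‖q g‖ ^ 2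
      rw [integral_mul_const]
      unfold avh
      rw [intervalIntegral.integral_of_le htau.le]
      ring
    have hii : IntervalIntegrable (fun t => iR F (fun g => h ((g * aM t) • I) * ‖q g‖ ^ 2)) volume 0 (tau R) := by
      rw [intervalIntegrable_iff_integrableOn_Ioc_of_le htau.le]
      exact hpi.integral_prod_right
    obtain ⟨H, hH⟩ : ∃ H : ℝ, H = ∫ z in F, h z * ‖φ z‖ ^ 2 := ⟨_, rfl⟩
    rw [← hH] at hone ⊢
    have hb := intervalIntegral.norm_integral_le_of_norm_le_const (a := 0) (b := tau R) (C := 2 * e / 3 * nn F φ) (f := fun t => R * iR F (fun g => h ((g * aM t) • I) * ‖q g‖ ^ 2) - H) (fun t ht' => by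
      rw [uIoc_of_le htau.le] at ht'
      exact hone t ht'.1.le ht'.2)
    rw [intervalIntegral.integral_sub (hii.const_mul R) intervalIntegrable_const, intervalIntegral.integral_const_mul, intervalIntegral.integral_const, sub_zero, smul_eq_mul, abs_of_pos htau, Real.norm_eq_abs] at hb
    rw [hsw]
    have e5 : R * ((tau R)⁻¹ * ∫ t in (0 : ℝ)..tau R, iR F (fun g => h ((g * aM t) • I) * ‖q g‖ ^ 2)) - H = (tau R)⁻¹ * ((R * ∫ t in (0 : ℝ)..tau R, iR F (fun g => h ((g * aM t) • I) * ‖q g‖ ^ 2)) - tau R * H) := by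
      field_simp
    rw [e5, abs_mul, abs_of_pos (inv_pos.2 htau), inv_mul_le_iff₀ htau]
    refine hb.trans ?_
    have : 0 ≤ e * nn F φ * tau R := by positivity
    linarith
  · have g1 := hup (w0 R) hw10' le_rfl
    have g2 := hlow (w0 R) hw10' le_rfl
    have g3 : qn F (cw β α (w0 R) (R ^ (-η))) R φ = iR F (fun g => ‖q g‖ ^ 2) := by rw [hq]; rfl
    rw [g3] at g1 g2
    have g4 : R ^ (-(1 / 40) : ℝ) * nn F φ ≤ e * nn F φ := mul_le_mul_of_nonneg_right (k2.trans (min_le_left _ _)) hnn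
    have g5 : R ^ (-δ2) * nn F φ ≤ e / 12 * nn F φ := mul_le_mul_of_nonneg_right (k1.trans (min_le_left _ _)) hnn
    have g6 : 0 ≤ e * nn F φ := by positivity
    rw [abs_le]
    constructor <;> linarith

end Pool.Agent.RPQ
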