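import Pool.Agent.helper11.RPQ.SpecI
import Pool.Agent.helper65.RPQ.PIN

/-!
# MP_07c750, project RPI, row PIW (the kernel on `Γ \ G` as an integral over paths, the phase of `W` in the weight)
-/

set_option autoImplicit false

open scoped MatrixGroups ContDiff Topology UpperHalfPlane ComplexConjugate ENNReal
open UpperHalfPlane MeasureTheory Filter Set

namespace Pool.Agent.RPQ

open Pool.Agent.RS
open Pool.Agent.MS (BA BB st pf gk Dk amk)

/-- the phase of `W` -/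
noncomputable def PIW_P {Γ : Subgroup SL(2, ℝ)} (W : ℍ → ℝ) (κ t : ℝ) (N n : ℕ) (g h : SL(2, ℝ)) (q : Γ × (Fin n → SL(2, ℝ))) : ℂ :=
  Complex.exp (((TH W κ t N g (ic t (PIN_vo n g h q)) : ℝ) : ℂ) * Complex.I)

section
variable {Γ : Subgroup SL(2, ℝ)} {J : ℕ} {χ : Fin J → ℍ → ℝ} {W : ℍ → ℝ} {κ t : ℝ} {u : SL(2, ℝ) → ℂ} {A : Set SL(2, ℝ)} {l : List ℕ} {n : ℕ}

theorem PIW_Pn (N : ℕ) (g h : SL(2, ℝ)) (q : Γ × (Fin n → SL(2, ℝ))) : ‖PIW_P W κ t N n g h q‖ = 1 := by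
  unfold PIW_P
  exact Complex.norm_exp_ofReal_mul_I _

theorem PIW_Pm (hT : ∀ (κ t : ℝ) (N n : ℕ), Continuous fun p : (SL(2, ℝ) × SL(2, ℝ)) × (Fin n → SL(2, ℝ)) =>
      TH W κ t N p.1.1 (ic t (vx p.1.1 p.1.2 p.2))) (N : ℕ) :
    Measurable (fun p : (SL(2, ℝ) × SL(2, ℝ)) × (Γ × (Fin n → SL(2, ℝ))) => PIW_P W κ t N n p.1.1 p.1.2 p.2) := by
  have h3 : Measurable (fun x : ℝ => Complex.exp (((x : ℝ) : ℂ) * Complex.I)) :=
    (Complex.continuous_exp.comp (Complex.continuous_ofReal.mul continuous_const)).measurable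
  have h1 := PIN_Tm (Γ := Γ) (n := n) (κ := κ) (t := t) (χ := fun _ : Fin 1 => W) (fun _ => hT) N 0
  have h2 := h3.comp h1
  simpa only [Function.comp_def, PIW_P] using h2

end

theorem PIW_proof (hWDK : WDK_stmt) (hTHL : THL_stmt) (hTHW : THW_stmt) : PIW_stmt := by
  intro Γ F J χ W s κ t u A l hΓ hF hχ hW hu hB hD hA hAi hl
  have := A_GLC.2.1
  have hc : Countable Γ := (QU.A_DOB Γ F hΓ hF).1
  have : SigmaFinite mG := VXI_sf
  have hsP : SigmaFinite (mP (nst l - 1)) := VXI_proof.2.2.2.2.2.1 _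
  have hsO : SigmaFinite (mO Γ l) := by
    unfold mO
    infer_instance
  obtain ⟨-, -, hTHc, -, -⟩ := hTHL Γ J χ hχ
  obtain ⟨hV, -, hWc, -, hTHl⟩ := hTHW Γ J χ W s hχ hW
  have hnst : nst l - 1 + 1 = nst l := by
    obtain ⟨a, l', rfl⟩ := List.exists_cons_of_ne_nil hl
    unfold nst
    simp only [List.map_cons, List.sum_cons]
    omega
  have hq : ∀ g h : SL(2, ℝ), Measurable (fun q : Γ × (Fin (nst l - 1) → SL(2, ℝ)) =>
      (((g, h), q) : (SL(2, ℝ) × SL(2, ℝ)) × (Γ × (Fin (nst l - 1) → SL(2, ℝ))))) :=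
    fun g h => measurable_const.prodMk measurable_id
  have hPq : ∀ g h : SL(2, ℝ), Measurable (fun q : Γ × (Fin (nst l - 1) → SL(2, ℝ)) => PIW_P W κ t (nst l) (nst l - 1) g h q) := by
    intro g h
    have h1 := (PIW_Pm (Γ := Γ) (n := nst l - 1) (κ := κ) (t := t) hWc (nst l)).comp (hq g h)
    simpa only [Function.comp_def] using h1
  have hform : ∀ (ξ : Fin J → ℝ) (g h : SL(2, ℝ)), perK Γ (wdK (fun z => W z + s * VV χ ξ z) κ t u A l) g h =
      ∫ q, PIW_P W κ t (nst l) (nst l - 1) g h q * PIN_E χ (κ * s) t u A l (nst l - 1) ξ g h q ∂((Measure.count : Measure Γ).prod (mP (nst l - 1))) := by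
    intro ξ g h
    obtain ⟨S, hS, hint0⟩ := PIN_int (κ := κ * s) hΓ hc hnst hu hA hB hD hTHc ξ g h
    have hint : Integrable (fun q : Γ × (Fin (nst l - 1) → SL(2, ℝ)) => PIW_P W κ t (nst l) (nst l - 1) g h q * PIN_E χ (κ * s) t u A l (nst l - 1) ξ g h q)
        ((Measure.count : Measure Γ).prod (mP (nst l - 1))) := by
      refine hint0.mono ((hPq g h).mul (PIN_Eq hu hA hTHc ξ g h)).aestronglyMeasurable (Eventually.of_forall fun q => ?_)
      rw [norm_mul, PIW_Pn, one_mul]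
    have h1 : ∫ q, PIW_P W κ t (nst l) (nst l - 1) g h q * PIN_E χ (κ * s) t u A l (nst l - 1) ξ g h q ∂((Measure.count : Measure Γ).prod (mP (nst l - 1))) =
        ∑' γ : Γ, ∫ v, PIW_P W κ t (nst l) (nst l - 1) g h (γ, v) * PIN_E χ (κ * s) t u A l (nst l - 1) ξ g h (γ, v) ∂mP (nst l - 1) := by
      rw [integral_prod _ hint, integral_countable' hint.integral_prod_left]
      simp only [Measure.real, Measure.count_singleton, ENNReal.toReal_one, one_smul]
    rw [h1]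
    have h3 : ∀ γ : Γ, ∫ v, PIW_P W κ t (nst l) (nst l - 1) g h (γ, v) * PIN_E χ (κ * s) t u A l (nst l - 1) ξ g h (γ, v) ∂mP (nst l - 1) =
        wdK (fun z => W z + s * VV χ ξ z) κ t u A l g ((γ : SL(2, ℝ)) * h) := by
      intro γ
      rw [hWDK Γ F (fun z => W z + s * VV χ ξ z) κ t u A l hΓ hF (hV ξ) hu hB hD hA hAi hl g ((γ : SL(2, ℝ)) * h)]
      apply integral_congr_ae
      refine Eventually.of_forall fun v => ?_
      simp only [PIN_E, PIW_P]
      rw [hTHl, Complex.ofReal_add, add_mul, Complex.exp_add, mul_assoc]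
      rfl
    have h4 : ∀ γ : Γ, γ ∉ S → ∫ v, PIW_P W κ t (nst l) (nst l - 1) g h (γ, v) * PIN_E χ (κ * s) t u A l (nst l - 1) ξ g h (γ, v) ∂mP (nst l - 1) = 0 := by
      intro γ hγ
      simp only [hS γ hγ, mul_zero, integral_zero]
    rw [tsum_eq_sum (s := S) h4]
    unfold perK
    rw [finsum_eq_sum_of_support_subset (s := S)]
    · exact Finset.sum_congr rfl fun γ _ => (h3 γ).symm
    · intro γ hγ
      by_contra h0
      apply hγ
      show wdK (fun z => W z + s * VV χ ξ z) κ t u A l g ((γ : SL(2, ℝ)) * h) = 0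
      rw [← h3 γ]
      exact h4 γ (by simpa using h0)
  have hWq : ∀ g h : SL(2, ℝ), Measurable (fun q : Om Γ l => Complex.exp (((TH W κ t (nst l) g (ic t (vo g h q)) : ℝ) : ℂ) * Complex.I) * wgt u t A l (vo g h q)) := by
    intro g h
    have h1 := (PIN_Wm (Γ := Γ) (n := nst l - 1) (t := t) (l := l) hu hA).comp (hq g h)
    exact (hPq g h).mul h1
  have hTq : ∀ g h : SL(2, ℝ), Measurable (fun (q : Om Γ l) (j : Fin J) => TH (χ j) (κ * s) t (nst l) g (ic t (vo g h q))) := by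
    intro g h
    apply measurable_pi_iff.mpr
    intro j
    have h1 := (PIN_Tm (Γ := Γ) (n := nst l - 1) (κ := κ * s) (t := t) hTHc (nst l) j).comp (hq g h)
    simpa only [Function.comp_def, PIN_vo, vo] using h1
  refine ⟨hsO, hc, fun g h => ⟨hWq g h, hTq g h⟩, fun ξ g h => ?_, ?_⟩
  · rw [hform ξ g h]
    refine integral_congr_ae (Eventually.of_forall fun q => ?_)
    simp only [PIN_E, PIW_P]
    show Complex.exp (((TH W κ t (nst l) g (ic t (vo g h q)) : ℝ) : ℂ) * Complex.I) *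
      (Complex.exp (((∑ j, ξ j * TH (χ j) (κ * s) t (nst l) g (ic t (vo g h q)) : ℝ) : ℂ) * Complex.I) * wgt u t A l (vo g h q)) = _
    ring
  · have h1 : (fun p : (Fin J → ℝ) × (SL(2, ℝ) × SL(2, ℝ)) => perK Γ (wdK (fun z => W z + s * VV χ p.1 z) κ t u A l) p.2.1 p.2.2) =
        fun p => ∫ q, PIW_P W κ t (nst l) (nst l - 1) p.2.1 p.2.2 q * PIN_E χ (κ * s) t u A l (nst l - 1) p.1 p.2.1 p.2.2 q ∂((Measure.count : Measure Γ).prod (mP (nst l - 1))) := by
      funext p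
      exact hform p.1 p.2.1 p.2.2
    rw [h1]
    have hr : Measurable (fun p : ((Fin J → ℝ) × (SL(2, ℝ) × SL(2, ℝ))) × (Γ × (Fin (nst l - 1) → SL(2, ℝ))) =>
        ((p.1.2, p.2) : (SL(2, ℝ) × SL(2, ℝ)) × (Γ × (Fin (nst l - 1) → SL(2, ℝ))))) :=
      (measurable_snd.comp measurable_fst).prodMk measurable_snd
    have h5 : Measurable (fun p : ((Fin J → ℝ) × (SL(2, ℝ) × SL(2, ℝ))) × (Γ × (Fin (nst l - 1) → SL(2, ℝ))) => PIW_P W κ t (nst l) (nst l - 1) p.1.2.1 p.1.2.2 p.2) := by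
      have h6 := (PIW_Pm (Γ := Γ) (n := nst l - 1) (κ := κ) (t := t) hWc (nst l)).comp hr
      simpa only [Function.comp_def] using h6
    have h2 := (h5.mul (PIN_Em (Γ := Γ) (n := nst l - 1) (κ := κ * s) (t := t) (l := l) hu hA hTHc)).stronglyMeasurable.integral_prod_right'
      (ν := (Measure.count : Measure Γ).prod (mP (nst l - 1)))
    exact h2.measurable

end Pool.Agent.RPQ
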