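import Pool.Agent.helper11.RPQ.SpecT

set_option autoImplicit false

open scoped MatrixGroups ContDiff Topology UpperHalfPlane ComplexConjugate
open UpperHalfPlane MeasureTheory Filter Set

namespace Pool.Agent.RPQ

open Pool.Agent.RS
open Pool.Agent.MS (BA BB st pf gk Dk amk)

noncomputable section

/-! ## The function `cosh d - 1` in coordinates -/

/-- `tt` in the coordinates `(x, τ)` -/
def MOA_T (a b : ℝ) (q : ℝ × ℝ) : ℝ := ((q.1 - a) ^ 2 + (Real.exp q.2 - b) ^ 2) / (2 * Real.exp q.2 * b)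

theorem MOA_tt (q : ℝ × ℝ) (w' : ℍ) : QU.tt (pt q.1 q.2) w' = MOA_T w'.re w'.im q := by
  unfold QU.tt MOA_T
  have h1 : ‖((pt q.1 q.2 : ℍ) : ℂ) - (w' : ℂ)‖ ^ 2 = (q.1 - w'.re) ^ 2 + (Real.exp q.2 - w'.im) ^ 2 := by
    rw [← Complex.normSq_eq_norm_sq, Complex.normSq_apply]
    have h2 : (((pt q.1 q.2 : ℍ) : ℂ) - (w' : ℂ)).re = q.1 - w'.re := rfl
    have h3 : (((pt q.1 q.2 : ℍ) : ℂ) - (w' : ℂ)).im = Real.exp q.2 - w'.im := rfl
    rw [h2, h3]
    ring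
  rw [h1]
  rfl

theorem MOA_T_eq (a b : ℝ) (hb : 0 < b) (q : ℝ × ℝ) : MOA_T a b q =
    1 * (1 * ((1 / (2 * b)) * (q.1 ^ 2 * Real.exp (-q.2)) + (-a / b) * (q.1 * Real.exp (-q.2))) +
      1 * (((a ^ 2 + b ^ 2) / (2 * b)) * Real.exp (-q.2) + (1 / (2 * b)) * Real.exp q.2)) + (-1) * (1 : ℝ) := by
  unfold MOA_T
  rw [Real.exp_neg]
  have he := Real.exp_pos q.2
  field_simp
  ring

theorem MOA_T_smooth (a b : ℝ) (hb : 0 < b) : ContDiff ℝ ∞ (MOA_T a b) := by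
  have h : MOA_T a b = fun q : ℝ × ℝ => 1 * (1 * ((1 / (2 * b)) * (q.1 ^ 2 * Real.exp (-q.2)) + (-a / b) * (q.1 * Real.exp (-q.2))) +
      1 * (((a ^ 2 + b ^ 2) / (2 * b)) * Real.exp (-q.2) + (1 / (2 * b)) * Real.exp q.2)) + (-1) * (1 : ℝ) :=
    funext fun q => MOA_T_eq a b hb q
  rw [h]
  have h1 : ContDiff ℝ ∞ (fun q : ℝ × ℝ => q.1) := contDiff_fst
  have h2 : ContDiff ℝ ∞ (fun q : ℝ × ℝ => Real.exp (-q.2)) := (contDiff_snd.neg).exp
  have h3 : ContDiff ℝ ∞ (fun q : ℝ × ℝ => Real.exp q.2) := contDiff_snd.exp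
  exact (contDiff_const.mul ((contDiff_const.mul ((contDiff_const.mul ((h1.pow 2).mul h2)).add (contDiff_const.mul (h1.mul h2)))).add
    (contDiff_const.mul ((contDiff_const.mul h2).add (contDiff_const.mul h3))))).add (contDiff_const.mul contDiff_const)

theorem MOA_T_nonneg (a b : ℝ) (hb : 0 < b) (q : ℝ × ℝ) : 0 ≤ MOA_T a b q := by
  unfold MOA_T
  have he := Real.exp_pos q.2
  positivity

/-- the box -/
def MOA_box : Set (ℝ × ℝ) := {q | |q.1| ≤ 1 / 8 ∧ |q.2| ≤ 1 / 8}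

theorem MOA_box_eq : MOA_box = Metric.closedBall (0 : ℝ × ℝ) (1 / 8) := by
  ext q
  rw [mem_closedBall_zero_iff, Prod.norm_def, sup_le_iff, Real.norm_eq_abs, Real.norm_eq_abs]
  rfl

theorem MOA_cpt (n : ℕ) (g : ℝ × ℝ → ℝ) (hg : ContDiff ℝ ∞ g) : ∃ B : ℝ, 0 ≤ B ∧ ∀ m ≤ n, ∀ q ∈ MOA_box, ‖iteratedFDeriv ℝ m g q‖ ≤ B := by
  have hc : IsCompact MOA_box := by
    rw [MOA_box_eq]
    exact isCompact_closedBall _ _
  have h1 : ∀ m : ℕ, ∃ B : ℝ, ∀ q ∈ MOA_box, ‖iteratedFDeriv ℝ m g q‖ ≤ B := by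
    intro m
    have h2 : Continuous (iteratedFDeriv ℝ m g) := hg.continuous_iteratedFDeriv (by exact_mod_cast le_top)
    obtain ⟨B, hB⟩ := hc.exists_bound_of_continuousOn h2.continuousOn
    exact ⟨B, hB⟩
  choose B hB using h1
  refine ⟨∑ m ∈ Finset.range (n + 1), |B m|, Finset.sum_nonneg fun _ _ => abs_nonneg _, fun m hm q hq => ?_⟩
  refine (hB m q hq).trans ((le_abs_self _).trans ?_)
  exact Finset.single_le_sum (f := fun m => |B m|) (fun _ _ => abs_nonneg _) (Finset.mem_range.2 (Nat.lt_succ_of_le hm))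

theorem MOA_lin (n : ℕ) (f g : ℝ × ℝ → ℝ) (hf : ContDiff ℝ ∞ f) (hg : ContDiff ℝ ∞ g) (a b : ℝ) (q : ℝ × ℝ) :
    ‖iteratedFDeriv ℝ n (fun q => a * f q + b * g q) q‖ ≤ |a| * ‖iteratedFDeriv ℝ n f q‖ + |b| * ‖iteratedFDeriv ℝ n g q‖ := by
  have hn : (n : WithTop ℕ∞) ≤ ∞ := by exact_mod_cast le_top
  have hf' : ContDiffAt ℝ n f q := (hf.of_le hn).contDiffAt
  have hg' : ContDiffAt ℝ n g q := (hg.of_le hn).contDiffAt
  have e : (fun q => a * f q + b * g q) = (a • f) + (b • g) := by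
    funext q
    simp
  have hfa : ContDiffAt ℝ n (a • f) q := hf'.const_smul a
  have hgb : ContDiffAt ℝ n (b • g) q := hg'.const_smul b
  rw [e, iteratedFDeriv_add_apply hfa hgb, iteratedFDeriv_const_smul_apply hf',
    iteratedFDeriv_const_smul_apply hg']
  refine (norm_add_le _ _).trans (le_of_eq ?_)
  rw [norm_smul, norm_smul, Real.norm_eq_abs, Real.norm_eq_abs]

theorem MOA_TB (n : ℕ) : ∃ B : ℝ, 1 ≤ B ∧ ∀ a b : ℝ, |a| ≤ 1 → 1 / 2 ≤ b → b ≤ 2 → ∀ q ∈ MOA_box, ∀ m ≤ n,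
    ‖iteratedFDeriv ℝ m (MOA_T a b) q‖ ≤ B := by
  have h1 : ContDiff ℝ ∞ (fun q : ℝ × ℝ => q.1 ^ 2 * Real.exp (-q.2)) := (contDiff_fst.pow 2).mul (contDiff_snd.neg).exp
  have h2 : ContDiff ℝ ∞ (fun q : ℝ × ℝ => q.1 * Real.exp (-q.2)) := contDiff_fst.mul (contDiff_snd.neg).exp
  have h3 : ContDiff ℝ ∞ (fun q : ℝ × ℝ => Real.exp (-q.2)) := (contDiff_snd.neg).exp
  have h4 : ContDiff ℝ ∞ (fun q : ℝ × ℝ => Real.exp q.2) := contDiff_snd.exp
  have h5 : ContDiff ℝ ∞ (fun _ : ℝ × ℝ => (1 : ℝ)) := contDiff_const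
  obtain ⟨B1, p1, b1⟩ := MOA_cpt n _ h1
  obtain ⟨B2, p2, b2⟩ := MOA_cpt n _ h2
  obtain ⟨B3, p3, b3⟩ := MOA_cpt n _ h3
  obtain ⟨B4, p4, b4⟩ := MOA_cpt n _ h4
  obtain ⟨B5, p5, b5⟩ := MOA_cpt n _ h5
  refine ⟨1 + (B1 + 2 * B2 + 5 * B3 + B4 + B5), by linarith, ?_⟩
  intro a b ha hb hb2 q hq m hm
  have hb0 : 0 < b := by linarith
  have h : MOA_T a b = fun q : ℝ × ℝ => 1 * (1 * ((1 / (2 * b)) * (q.1 ^ 2 * Real.exp (-q.2)) + (-a / b) * (q.1 * Real.exp (-q.2))) +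
      1 * (((a ^ 2 + b ^ 2) / (2 * b)) * Real.exp (-q.2) + (1 / (2 * b)) * Real.exp q.2)) + (-1) * (1 : ℝ) :=
    funext fun q => MOA_T_eq a b hb0 q
  rw [h]
  have s1 : ContDiff ℝ ∞ (fun q : ℝ × ℝ => (1 / (2 * b)) * (q.1 ^ 2 * Real.exp (-q.2)) + (-a / b) * (q.1 * Real.exp (-q.2))) :=
    (contDiff_const.mul h1).add (contDiff_const.mul h2)
  have s2 : ContDiff ℝ ∞ (fun q : ℝ × ℝ => ((a ^ 2 + b ^ 2) / (2 * b)) * Real.exp (-q.2) + (1 / (2 * b)) * Real.exp q.2) :=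
    (contDiff_const.mul h3).add (contDiff_const.mul h4)
  have s3 : ContDiff ℝ ∞ (fun q : ℝ × ℝ => 1 * ((1 / (2 * b)) * (q.1 ^ 2 * Real.exp (-q.2)) + (-a / b) * (q.1 * Real.exp (-q.2))) +
      1 * (((a ^ 2 + b ^ 2) / (2 * b)) * Real.exp (-q.2) + (1 / (2 * b)) * Real.exp q.2)) :=
    (contDiff_const.mul s1).add (contDiff_const.mul s2)
  have i1 := MOA_lin m _ _ s3 h5 1 (-1) q
  have i2 := MOA_lin m _ _ s1 s2 1 1 q
  have i3 := MOA_lin m _ _ h1 h2 (1 / (2 * b)) (-a / b) q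
  have i4 := MOA_lin m _ _ h3 h4 ((a ^ 2 + b ^ 2) / (2 * b)) (1 / (2 * b)) q
  have c1 : |1 / (2 * b)| ≤ 1 := by
    rw [abs_of_pos (by positivity), div_le_one (by positivity)]
    linarith
  have c2 : |-a / b| ≤ 2 := by
    rw [abs_div, abs_neg, abs_of_pos hb0, div_le_iff₀ hb0]
    linarith
  have c3 : |(a ^ 2 + b ^ 2) / (2 * b)| ≤ 5 := by
    rw [abs_of_nonneg (by positivity), div_le_iff₀ (by positivity)]
    have : a ^ 2 ≤ 1 := by
      rw [← sq_abs]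
      nlinarith [abs_nonneg a]
    nlinarith
  have n1 := b1 m hm q hq
  have n2 := b2 m hm q hq
  have n3 := b3 m hm q hq
  have n4 := b4 m hm q hq
  have n5 := b5 m hm q hq
  have j1 : |1 / (2 * b)| * ‖iteratedFDeriv ℝ m (fun q : ℝ × ℝ => q.1 ^ 2 * Real.exp (-q.2)) q‖ ≤ 1 * B1 :=
    mul_le_mul c1 n1 (norm_nonneg _) (by norm_num)
  have j2 : |-a / b| * ‖iteratedFDeriv ℝ m (fun q : ℝ × ℝ => q.1 * Real.exp (-q.2)) q‖ ≤ 2 * B2 :=
    mul_le_mul c2 n2 (norm_nonneg _) (by norm_num)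
  have j3 : |(a ^ 2 + b ^ 2) / (2 * b)| * ‖iteratedFDeriv ℝ m (fun q : ℝ × ℝ => Real.exp (-q.2)) q‖ ≤ 5 * B3 :=
    mul_le_mul c3 n3 (norm_nonneg _) (by norm_num)
  have j4 : |1 / (2 * b)| * ‖iteratedFDeriv ℝ m (fun q : ℝ × ℝ => Real.exp q.2) q‖ ≤ 1 * B4 :=
    mul_le_mul c1 n4 (norm_nonneg _) (by norm_num)
  rw [abs_one, one_mul, abs_neg, abs_one, one_mul] at i1
  rw [abs_one, one_mul, one_mul] at i2
  linarith

/-! ## The derivatives of the profile -/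

theorem MOA_exp {τ : ℝ} (h : |τ| ≤ 1 / 8) : 7 / 8 ≤ Real.exp τ ∧ Real.exp τ ≤ 8 / 7 := by
  obtain ⟨h1, h2⟩ := abs_le.1 h
  constructor
  · have := Real.add_one_le_exp τ
    linarith
  · have h3 := Real.add_one_le_exp (-τ)
    rw [Real.exp_neg] at h3
    have h4 : 7 / 8 ≤ (Real.exp τ)⁻¹ := by linarith
    have h5 := inv_anti₀ (by norm_num) h4
    rw [inv_inv] at h5
    linarith

theorem MOA_region {a b : ℝ} (hb : 0 < b) {q : ℝ × ℝ} (hq : q ∈ MOA_box) {s : ℝ} (hs : s ≤ 1 / 4096) (h : MOA_T a b q ≤ s) :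
    |a| ≤ 1 ∧ 1 / 2 ≤ b ∧ b ≤ 2 := by
  obtain ⟨h1, h2⟩ := hq
  obtain ⟨e1, e2⟩ := MOA_exp h2
  unfold MOA_T at h
  have he := Real.exp_pos q.2
  rw [div_le_iff₀ (by positivity)] at h
  set e := Real.exp q.2
  have h3 : (q.1 - a) ^ 2 + (e - b) ^ 2 ≤ 1 / 4096 * (2 * e * b) :=
    h.trans (mul_le_mul_of_nonneg_right hs (by positivity))
  have h4 : e * b ≤ 8 / 7 * b := mul_le_mul_of_nonneg_right e2 hb.le
  have h5 : (q.1 - a) ^ 2 + (e - b) ^ 2 ≤ 1 / 4096 * (16 / 7 * b) := by nlinarith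
  have h6 : (e - b) ^ 2 ≤ 1 / 4096 * (16 / 7 * b) := by nlinarith [sq_nonneg (q.1 - a)]
  have h7 : 1 / 2 ≤ b := by
    by_contra hcon
    push Not at hcon
    nlinarith
  have h8 : b ≤ 2 := by
    by_contra hcon
    push Not at hcon
    nlinarith
  refine ⟨?_, h7, h8⟩
  have h9 : (q.1 - a) ^ 2 ≤ (1 / 2) ^ 2 := by nlinarith [sq_nonneg (e - b)]
  have h10 := abs_le.1 (abs_le_of_sq_le_sq h9 (by norm_num))
  obtain ⟨h11, h12⟩ := abs_le.1 h1
  rw [abs_le]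
  constructor <;> linarith [h10.1, h10.2]

theorem MOA_kz (κ : ℝ → ℝ) (hκ : ContDiff ℝ ∞ κ) (h0 : ∀ s, 1 / 64 ≤ s → κ s = 0) (n : ℕ) (s : ℝ) (hs : 1 / 64 ≤ s) :
    iteratedFDeriv ℝ n κ s = 0 := by
  have hc : Continuous (iteratedFDeriv ℝ n κ) := hκ.continuous_iteratedFDeriv (by exact_mod_cast le_top)
  have hcl : IsClosed {s | iteratedFDeriv ℝ n κ s = 0} := isClosed_eq hc continuous_const
  have hsub : Ioi (1 / 64 : ℝ) ⊆ {s | iteratedFDeriv ℝ n κ s = 0} := by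
    intro s hs
    have h1 : κ =ᶠ[𝓝 s] fun _ => (0 : ℝ) := by
      filter_upwards [Ioi_mem_nhds hs] with t ht
      exact h0 t (le_of_lt ht)
    have h2 := (Filter.EventuallyEq.iteratedFDeriv ℝ h1 n).eq_of_nhds
    have h3 : (fun _ : ℝ => (0 : ℝ)) = 0 := rfl
    rw [h3, iteratedFDeriv_zero] at h2
    exact h2
  have h3 : Ici (1 / 64 : ℝ) ⊆ {s | iteratedFDeriv ℝ n κ s = 0} := by
    rw [← closure_Ioi (1 / 64 : ℝ)]
    exact closure_minimal hsub hcl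
  exact h3 hs

/-- the profile in coordinates -/
def MOA_G (κ : ℝ → ℝ) (a b ρ : ℝ) (q : ℝ × ℝ) : ℝ := κ (MOA_T a b q / ρ ^ 2) / ρ ^ 2

theorem MOA_G_eq (κ : ℝ → ℝ) (a b ρ : ℝ) : MOA_G κ a b ρ = (ρ ^ 2)⁻¹ • (κ ∘ ((ρ ^ 2)⁻¹ • MOA_T a b)) := by
  funext q
  simp only [MOA_G, Pi.smul_apply, Function.comp_apply, smul_eq_mul]
  rw [div_eq_inv_mul, div_eq_inv_mul]

theorem MOA_G_smooth (κ : ℝ → ℝ) (hκ : ContDiff ℝ ∞ κ) (a b ρ : ℝ) (hb : 0 < b) : ContDiff ℝ ∞ (MOA_G κ a b ρ) := by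
  rw [MOA_G_eq]
  have h1 : ContDiff ℝ ∞ ((ρ ^ 2)⁻¹ • MOA_T a b) := (MOA_T_smooth a b hb).const_smul (ρ ^ 2)⁻¹
  have h2 : ContDiff ℝ ∞ (κ ∘ ((ρ ^ 2)⁻¹ • MOA_T a b)) := hκ.comp h1
  exact h2.const_smul (ρ ^ 2)⁻¹

theorem MOA_GB (κ : ℝ → ℝ) (hκ : ContDiff ℝ ∞ κ) (h0 : ∀ s, 1 / 64 ≤ s → κ s = 0) (k : ℕ) : ∃ C : ℝ, 0 ≤ C ∧
    ∀ a b ρ : ℝ, 0 < b → 0 < ρ → ρ ≤ 1 / 8 → ∀ q ∈ MOA_box, ∀ n ≤ k,
      ‖iteratedFDeriv ℝ n (MOA_G κ a b ρ) q‖ ≤ C * (ρ ^ (2 + 2 * n))⁻¹ := by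
  obtain ⟨B, hB1, hB⟩ := MOA_TB k
  -- bounds for the derivatives of `κ`
  have hK : ∀ m : ℕ, ∃ K : ℝ, ∀ s ∈ Icc (0 : ℝ) (1 / 64), ‖iteratedFDeriv ℝ m κ s‖ ≤ K := by
    intro m
    have h2 : Continuous (iteratedFDeriv ℝ m κ) := hκ.continuous_iteratedFDeriv (by exact_mod_cast le_top)
    obtain ⟨K, hK⟩ := isCompact_Icc.exists_bound_of_continuousOn h2.continuousOn
    exact ⟨K, hK⟩
  choose K0 hK0 using hK
  obtain ⟨K, hKn, hK⟩ : ∃ K : ℝ, 0 ≤ K ∧ ∀ m ≤ k, ∀ s, 0 ≤ s → ‖iteratedFDeriv ℝ m κ s‖ ≤ K := by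
    refine ⟨∑ m ∈ Finset.range (k + 1), |K0 m|, Finset.sum_nonneg fun _ _ => abs_nonneg _, fun m hm s hs => ?_⟩
    rcases le_or_gt (1 / 64) s with h | h
    · rw [MOA_kz κ hκ h0 m s h, norm_zero]
      exact Finset.sum_nonneg fun _ _ => abs_nonneg _
    · refine (hK0 m s ⟨hs, h.le⟩).trans ((le_abs_self _).trans ?_)
      exact Finset.single_le_sum (f := fun m => |K0 m|) (fun _ _ => abs_nonneg _) (Finset.mem_range.2 (Nat.lt_succ_of_le hm))
  refine ⟨(k.factorial : ℝ) * K * B ^ k, by positivity, ?_⟩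
  intro a b ρ hb hρ hρ8 q hq n hn
  have hn' : (n : WithTop ℕ∞) ≤ ∞ := by exact_mod_cast le_top
  have hT := MOA_T_smooth a b hb
  have hTs : ContDiff ℝ ∞ ((ρ ^ 2)⁻¹ • MOA_T a b) := hT.const_smul (ρ ^ 2)⁻¹
  have hρ2 : (0 : ℝ) < ρ ^ 2 := by positivity
  have hder : ∀ i : ℕ, ‖iteratedFDeriv ℝ i ((ρ ^ 2)⁻¹ • MOA_T a b) q‖ = (ρ ^ 2)⁻¹ * ‖iteratedFDeriv ℝ i (MOA_T a b) q‖ := by
    intro i
    have hi : (i : WithTop ℕ∞) ≤ ∞ := by exact_mod_cast le_top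
    rw [iteratedFDeriv_const_smul_apply (hT.of_le hi).contDiffAt, norm_smul, Real.norm_of_nonneg (by positivity)]
  have hs0 : 0 ≤ ((ρ ^ 2)⁻¹ • MOA_T a b) q := by
    rw [Pi.smul_apply, smul_eq_mul]
    exact mul_nonneg (by positivity) (MOA_T_nonneg a b hb q)
  have hmain : ‖iteratedFDeriv ℝ n (κ ∘ ((ρ ^ 2)⁻¹ • MOA_T a b)) q‖ ≤ (k.factorial : ℝ) * K * B ^ k * ((ρ ^ 2)⁻¹) ^ n := by
    rcases le_or_gt (1 / 64) (((ρ ^ 2)⁻¹ • MOA_T a b) q) with h | h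
    · -- outside of the support
      set D : ℝ := 1 + ∑ i ∈ Finset.range (n + 1), ‖iteratedFDeriv ℝ i ((ρ ^ 2)⁻¹ • MOA_T a b) q‖ with hD
      have h1 := norm_iteratedFDeriv_comp_le hκ hTs hn' q (C := 0) (D := D)
        (fun i _ => by rw [MOA_kz κ hκ h0 i _ h, norm_zero]) (fun i hi hin => by
          have hD1 : 1 ≤ D := by
            have : 0 ≤ ∑ i ∈ Finset.range (n + 1), ‖iteratedFDeriv ℝ i ((ρ ^ 2)⁻¹ • MOA_T a b) q‖ :=
              Finset.sum_nonneg fun _ _ => norm_nonneg _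
            linarith
          have h2 : ‖iteratedFDeriv ℝ i ((ρ ^ 2)⁻¹ • MOA_T a b) q‖ ≤ D := by
            have := Finset.single_le_sum (f := fun i => ‖iteratedFDeriv ℝ i ((ρ ^ 2)⁻¹ • MOA_T a b) q‖)
              (fun _ _ => norm_nonneg _) (Finset.mem_range.2 (Nat.lt_succ_of_le hin))
            linarith
          exact h2.trans (le_self_pow₀ hD1 (by omega)))
      rw [mul_zero, zero_mul] at h1
      exact h1.trans (by positivity)
    · have h2 : MOA_T a b q ≤ ρ ^ 2 / 64 := by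
        rw [Pi.smul_apply, smul_eq_mul, ← div_eq_inv_mul, div_lt_iff₀ hρ2] at h
        linarith
      obtain ⟨r1, r2, r3⟩ := MOA_region hb hq (by nlinarith) h2
      have hρi : 1 ≤ (ρ ^ 2)⁻¹ := by
        rw [one_le_inv₀ hρ2]
        nlinarith
      have hBρ : 1 ≤ B * (ρ ^ 2)⁻¹ := one_le_mul_of_one_le_of_one_le hB1 hρi
      have h1 := norm_iteratedFDeriv_comp_le hκ hTs hn' q (C := K) (D := B * (ρ ^ 2)⁻¹)
        (fun i hi => hK i (hi.trans hn) _ hs0) (fun i hi hin => by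
          rw [hder]
          have h3 := hB a b r1 r2 r3 q hq i (hin.trans hn)
          calc (ρ ^ 2)⁻¹ * ‖iteratedFDeriv ℝ i (MOA_T a b) q‖ ≤ (ρ ^ 2)⁻¹ * B := mul_le_mul_of_nonneg_left h3 (by positivity)
            _ = B * (ρ ^ 2)⁻¹ := mul_comm _ _
            _ ≤ _ := le_self_pow₀ hBρ (by omega))
      refine h1.trans ?_
      rw [mul_pow]
      have h4 : (n.factorial : ℝ) ≤ (k.factorial : ℝ) := by exact_mod_cast Nat.factorial_le hn
      have h5 : B ^ n ≤ B ^ k := pow_le_pow_right₀ hB1 hn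
      have h6 : (n.factorial : ℝ) * K * B ^ n ≤ (k.factorial : ℝ) * K * B ^ k := by gcongr
      calc (n.factorial : ℝ) * K * (B ^ n * (ρ ^ 2)⁻¹ ^ n) = ((n.factorial : ℝ) * K * B ^ n) * (ρ ^ 2)⁻¹ ^ n := by ring
        _ ≤ _ := mul_le_mul_of_nonneg_right h6 (by positivity)
  rw [MOA_G_eq, iteratedFDeriv_const_smul_apply ((hκ.comp hTs).of_le hn').contDiffAt, norm_smul, Real.norm_of_nonneg (by positivity)]
  refine (mul_le_mul_of_nonneg_left hmain (by positivity)).trans (le_of_eq ?_)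
  rw [pow_add, pow_mul, mul_inv, inv_pow]
  ring

/-! ## Smoothness -/

theorem MOA_cc (c : ℍ → ℂ) (h : QU.CD ∞ c) : ContDiff ℝ ∞ (fun q : ℝ × ℝ => cc c q.1 q.2) := by
  have h1 : ContDiff ℝ ∞ (fun q : ℝ × ℝ => ((q.1 : ℂ) + (Real.exp q.2 : ℂ) * Complex.I)) :=
    (Complex.ofRealCLM.contDiff.comp contDiff_fst).add ((Complex.ofRealCLM.contDiff.comp contDiff_snd.exp).mul contDiff_const)
  have him : ∀ q : ℝ × ℝ, ((q.1 : ℂ) + (Real.exp q.2 : ℂ) * Complex.I).im = Real.exp q.2 := by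
    intro q
    rw [Complex.add_im, Complex.mul_im, Complex.ofReal_im, Complex.ofReal_im, Complex.ofReal_re, Complex.I_im, Complex.I_re]
    ring
  have hre : ∀ q : ℝ × ℝ, ((q.1 : ℂ) + (Real.exp q.2 : ℂ) * Complex.I).re = q.1 := by
    intro q
    rw [Complex.add_re, Complex.mul_re, Complex.ofReal_re, Complex.ofReal_im, Complex.ofReal_re, Complex.I_im, Complex.I_re]
    ring
  have h2 : (fun q : ℝ × ℝ => cc c q.1 q.2) = QU.onC c ∘ fun q : ℝ × ℝ => ((q.1 : ℂ) + (Real.exp q.2 : ℂ) * Complex.I) := by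
    funext q
    change c (pt q.1 q.2) = c (ofComplex _)
    congr 1
    have h3 : (pt q.1 q.2 : ℍ) = ⟨(q.1 : ℂ) + (Real.exp q.2 : ℂ) * Complex.I, by rw [him]; exact Real.exp_pos _⟩ := by
      apply UpperHalfPlane.ext
      change (⟨q.1, Real.exp q.2⟩ : ℂ) = (q.1 : ℂ) + (Real.exp q.2 : ℂ) * Complex.I
      apply Complex.ext
      · rw [hre]
      · rw [him]
    rw [h3, ofComplex_apply_of_im_pos]
  rw [h2]
  exact ContDiffOn.comp_contDiff h h1 fun q => by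
    change 0 < ((q.1 : ℂ) + (Real.exp q.2 : ℂ) * Complex.I).im
    rw [him]
    exact Real.exp_pos _

theorem MOA_onC (κ : ℝ → ℝ) (hκ : ContDiff ℝ ∞ κ) (ρ : ℝ) (w' : ℍ) :
    ContDiffOn ℝ ∞ (QU.onC (fun z : ℍ => mo κ ρ (QU.tt z w'))) {w : ℂ | 0 < w.im} := by
  have h1 : ∀ u ∈ {w : ℂ | 0 < w.im}, QU.onC (fun z : ℍ => mo κ ρ (QU.tt z w')) u =
      κ (((u.re - w'.re) ^ 2 + (u.im - w'.im) ^ 2) / (2 * u.im * w'.im) / ρ ^ 2) / ρ ^ 2 := by
    intro u hu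
    unfold QU.onC mo QU.tt
    rw [ofComplex_apply_of_im_pos hu]
    change κ (‖(((⟨u, hu⟩ : ℍ) : ℂ)) - (w' : ℂ)‖ ^ 2 / (2 * u.im * w'.im) / ρ ^ 2) / ρ ^ 2 = _
    have h2 : ‖(((⟨u, hu⟩ : ℍ) : ℂ)) - (w' : ℂ)‖ ^ 2 = (u.re - w'.re) ^ 2 + (u.im - w'.im) ^ 2 := by
      rw [← Complex.normSq_eq_norm_sq, Complex.normSq_apply]
      have h2 : ((((⟨u, hu⟩ : ℍ) : ℂ)) - (w' : ℂ)).re = u.re - w'.re := rfl
      have h3 : ((((⟨u, hu⟩ : ℍ) : ℂ)) - (w' : ℂ)).im = u.im - w'.im := rfl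
      rw [h2, h3]
      ring
    rw [h2]
  refine ContDiffOn.congr ?_ h1
  have hre : ContDiffOn ℝ ∞ (fun u : ℂ => u.re) {w : ℂ | 0 < w.im} := Complex.reCLM.contDiff.contDiffOn
  have him : ContDiffOn ℝ ∞ (fun u : ℂ => u.im) {w : ℂ | 0 < w.im} := Complex.imCLM.contDiff.contDiffOn
  have h3 : ContDiffOn ℝ ∞ (fun u : ℂ => ((u.re - w'.re) ^ 2 + (u.im - w'.im) ^ 2) / (2 * u.im * w'.im) / ρ ^ 2) {w : ℂ | 0 < w.im} := by
    refine ContDiffOn.div_const (ContDiffOn.div ?_ ?_ ?_) _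
    · exact ((hre.sub contDiffOn_const).pow 2).add ((him.sub contDiffOn_const).pow 2)
    · exact (contDiffOn_const.mul him).mul contDiffOn_const
    · intro u hu
      have h4 : 0 < u.im := hu
      have h5 := w'.im_pos
      positivity
  exact (hκ.comp_contDiffOn h3).div_const _

theorem MOA_proof : MOA_stmt := by
  intro κ k hκ
  obtain ⟨C, hC0, hC⟩ := MOA_GB κ hκ.smooth hκ.supp (k + 1)
  refine ⟨2 ^ k * C + 1, by positivity, ?_⟩
  intro A w l ρ c w' hA hw hlρ hρ8 hwl hc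
  -- positivity
  have hlp : 0 < l ∧ 0 < ρ := by
    have h1 : 0 < l * ρ ^ (2 * k) := lt_of_lt_of_le hw hwl
    have h2 : 0 ≤ ρ ^ (2 * k) := by
      rw [pow_mul]
      positivity
    have h3 : 0 < l := by
      by_contra hcon
      push Not at hcon
      have := mul_nonpos_of_nonpos_of_nonneg hcon h2
      linarith
    exact ⟨h3, lt_of_lt_of_le h3 hlρ⟩
  obtain ⟨hl, hρ⟩ := hlp
  have hρ1 : ρ ≤ 1 := by linarith
  have hl1 : l ≤ 1 := by linarith
  have hwl' : w ≤ l := hwl.trans (mul_le_of_le_one_right hl.le (pow_le_one₀ hρ.le hρ1))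
  have hb := w'.im_pos
  have hr4 : ρ ^ (-4 : ℝ) = (ρ ^ 4)⁻¹ := by
    rw [Real.rpow_neg hρ.le]
    congr 1
    exact_mod_cast Real.rpow_natCast ρ 4
  set G : ℝ × ℝ → ℝ := MOA_G κ w'.re w'.im ρ with hG
  have hGs : ContDiff ℝ ∞ G := MOA_G_smooth κ hκ.smooth _ _ _ hb
  have hI : (pt 0 0 : ℍ) = I := by
    apply UpperHalfPlane.ext
    change (⟨0, Real.exp 0⟩ : ℂ) = Complex.I
    rw [Real.exp_zero]
    rfl
  have hGm : ∀ q : ℝ × ℝ, mo κ ρ (QU.tt (pt q.1 q.2) w') - mo κ ρ (QU.tt I w') = G q - G 0 := by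
    intro q
    have h1 : QU.tt I w' = MOA_T w'.re w'.im 0 := by
      rw [← hI]
      exact MOA_tt 0 w'
    rw [h1, MOA_tt]
    rfl
  have hms : ContDiff ℝ ∞ (fun q => G q - G 0) := hGs.sub contDiff_const
  -- the bound for the factor
  have hmB : ∀ q : ℝ × ℝ, |q.1| ≤ w → |q.2| ≤ l → ∀ i ≤ k,
      ‖iteratedFDeriv ℝ i (fun q => G q - G 0) q‖ ≤ C * (l * (ρ ^ 4)⁻¹) * (1 / w) ^ i := by
    intro q h1 h2 i hi
    have hqb : q ∈ MOA_box := ⟨h1.trans (by linarith), h2.trans (by linarith)⟩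
    rcases Nat.eq_zero_or_pos i with rfl | hi0
    · rw [norm_iteratedFDeriv_zero, pow_zero, mul_one]
      have hconv : Convex ℝ MOA_box := by
        rw [MOA_box_eq]
        exact convex_closedBall _ _
      have h3 := hconv.norm_image_sub_le_of_norm_fderiv_le (𝕜 := ℝ) (f := G) (C := C * (ρ ^ 4)⁻¹)
        (fun x _ => (hGs.differentiable (by simp)) x) (fun x hx => by
          have h4 := hC w'.re w'.im ρ hb hρ hρ8 x hx 1 (by omega)
          rw [norm_iteratedFDeriv_one] at h4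
          exact h4) (x := 0) (y := q) (by
            rw [MOA_box_eq]
            exact Metric.mem_closedBall_self (by norm_num)) hqb
      have h5 : ‖q - 0‖ ≤ l := by
        rw [sub_zero, Prod.norm_def, sup_le_iff, Real.norm_eq_abs, Real.norm_eq_abs]
        exact ⟨h1.trans hwl', h2⟩
      calc ‖G q - G 0‖ ≤ C * (ρ ^ 4)⁻¹ * ‖q - 0‖ := h3
        _ ≤ C * (ρ ^ 4)⁻¹ * l := mul_le_mul_of_nonneg_left h5 (by positivity)
        _ = C * (l * (ρ ^ 4)⁻¹) := by ring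
    · have hi' : (i : WithTop ℕ∞) ≤ ∞ := by exact_mod_cast le_top
      have e1 : (fun q => G q - G 0) = G - fun _ => G 0 := rfl
      rw [e1, iteratedFDeriv_sub_apply (hGs.of_le hi').contDiffAt contDiff_const.contDiffAt]
      rw [iteratedFDeriv_const_of_ne (by omega)]
      simp only [Pi.zero_apply, sub_zero]
      refine (hC w'.re w'.im ρ hb hρ hρ8 q hqb i (by omega)).trans ?_
      rw [mul_assoc]
      refine mul_le_mul_of_nonneg_left ?_ hC0
      -- `w ^ i ≤ l * ρ ^ (2 i - 2)`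
      have h6 : w ^ i ≤ l * ρ ^ (2 * (i - 1)) := by
        calc w ^ i ≤ (l * ρ ^ (2 * k)) ^ i := pow_le_pow_left₀ hw.le hwl i
          _ = l ^ i * ρ ^ (2 * k * i) := by rw [mul_pow, ← pow_mul]
          _ ≤ l * ρ ^ (2 * (i - 1)) := by
            refine mul_le_mul (pow_le_of_le_one hl.le hl1 (by omega)) ?_ (by positivity) hl.le
            refine pow_le_pow_of_le_one hρ.le hρ1 ?_
            have : 2 * (i - 1) ≤ 2 * 1 * i := by omega
            exact this.trans (Nat.mul_le_mul_right _ (Nat.mul_le_mul_left _ (by omega)))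
      rw [one_div, inv_pow, ← div_eq_mul_inv l, ← div_eq_mul_inv, div_div, inv_eq_one_div, div_le_div_iff₀ (by positivity) (by positivity), one_mul]
      have h7 : 2 + 2 * i = 4 + 2 * (i - 1) := by omega
      rw [h7, pow_add]
      calc ρ ^ 4 * w ^ i ≤ ρ ^ 4 * (l * ρ ^ (2 * (i - 1))) := mul_le_mul_of_nonneg_left h6 (by positivity)
        _ = l * (ρ ^ 4 * ρ ^ (2 * (i - 1))) := by ring
  have hccs := MOA_cc c hc.smooth
  refine ⟨⟨?_, ?_, ?_⟩, ?_⟩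
  · -- smoothness
    have h1 := MOA_onC κ hκ.smooth ρ w'
    have h2 : QU.onC (fun z => c z * ((mo κ ρ (QU.tt z w') - mo κ ρ (QU.tt I w') : ℝ) : ℂ)) =
        fun u => QU.onC c u * ((QU.onC (fun z : ℍ => mo κ ρ (QU.tt z w')) u - mo κ ρ (QU.tt I w') : ℝ) : ℂ) := rfl
    unfold QU.CD
    rw [h2]
    exact ContDiffOn.mul hc.smooth (Complex.ofRealCLM.contDiff.comp_contDiffOn (h1.sub contDiffOn_const))
  · intro z hz
    exact hc.supp z (left_ne_zero_of_mul hz)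
  · intro n hn p
    have e1 : (fun q : ℝ × ℝ => cc (fun z => c z * ((mo κ ρ (QU.tt z w') - mo κ ρ (QU.tt I w') : ℝ) : ℂ)) q.1 q.2) =
        fun q => (G q - G 0) • cc c q.1 q.2 := by
      funext q
      change c (pt q.1 q.2) * ((mo κ ρ (QU.tt (pt q.1 q.2) w') - mo κ ρ (QU.tt I w') : ℝ) : ℂ) = _
      rw [hGm, Complex.real_smul, mul_comm]
      rfl
    rw [e1, hr4]
    have hn' : (n : WithTop ℕ∞) ≤ ∞ := by exact_mod_cast le_top
    by_cases hp : |p.1| ≤ w ∧ |p.2| ≤ l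
    · refine (norm_iteratedFDeriv_smul_le hms hccs p hn').trans ?_
      have h1 : ∀ i ∈ Finset.range (n + 1), (n.choose i : ℝ) * ‖iteratedFDeriv ℝ i (fun q => G q - G 0) p‖ *
          ‖iteratedFDeriv ℝ (n - i) (fun q : ℝ × ℝ => cc c q.1 q.2) p‖ ≤ (n.choose i : ℝ) * (C * A * (l * (ρ ^ 4)⁻¹) * (1 / w) ^ n) := by
        intro i hi
        have hin : i ≤ n := Nat.lt_succ_iff.1 (Finset.mem_range.1 hi)
        have h2 := hmB p hp.1 hp.2 i (hin.trans hn)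
        have h3 := hc.der (n - i) ((Nat.sub_le _ _).trans hn) p
        rw [mul_assoc]
        refine mul_le_mul_of_nonneg_left ?_ (by positivity)
        have h4 : (1 / w : ℝ) ^ n = (1 / w) ^ i * (1 / w) ^ (n - i) := by
          rw [← pow_add]
          congr 1
          omega
        calc ‖iteratedFDeriv ℝ i (fun q => G q - G 0) p‖ * ‖iteratedFDeriv ℝ (n - i) (fun q : ℝ × ℝ => cc c q.1 q.2) p‖
            ≤ (C * (l * (ρ ^ 4)⁻¹) * (1 / w) ^ i) * (A * (1 / w) ^ (n - i)) :=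
              mul_le_mul h2 h3 (norm_nonneg _) (by positivity)
          _ = _ := by rw [h4]; ring
      refine (Finset.sum_le_sum h1).trans ?_
      rw [← Finset.sum_mul]
      have h5 : ∑ i ∈ Finset.range (n + 1), (n.choose i : ℝ) = 2 ^ n := by
        exact_mod_cast Nat.sum_range_choose n
      rw [h5]
      have h6 : (2 : ℝ) ^ n ≤ 2 ^ k := pow_le_pow_right₀ (by norm_num) hn
      have h7 : 0 ≤ A * (l * (ρ ^ 4)⁻¹) * (1 / w) ^ n := by positivity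
      calc (2 : ℝ) ^ n * (C * A * (l * (ρ ^ 4)⁻¹) * (1 / w) ^ n) = (2 ^ n * C) * (A * (l * (ρ ^ 4)⁻¹) * (1 / w) ^ n) := by ring
        _ ≤ (2 ^ k * C + 1) * (A * (l * (ρ ^ 4)⁻¹) * (1 / w) ^ n) := by
            refine mul_le_mul_of_nonneg_right ?_ h7
            nlinarith
        _ = _ := by ring
    · have h1 : (fun q => (G q - G 0) • cc c q.1 q.2) =ᶠ[𝓝 p] fun _ => (0 : ℂ) := by
        have hopen : IsOpen {q : ℝ × ℝ | ¬ (|q.1| ≤ w ∧ |q.2| ≤ l)} := by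
          have h2 : IsClosed {q : ℝ × ℝ | |q.1| ≤ w ∧ |q.2| ≤ l} :=
            (isClosed_le (continuous_fst.abs) continuous_const).inter (isClosed_le (continuous_snd.abs) continuous_const)
          exact h2.isOpen_compl
        filter_upwards [hopen.mem_nhds hp] with q hq
        have h3 : cc c q.1 q.2 = 0 := by
          by_contra hne
          apply hq
          have h4 := hc.supp (pt q.1 q.2) hne
          have h5 : (pt q.1 q.2).re = q.1 := rfl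
          have h6 : (pt q.1 q.2).im = Real.exp q.2 := rfl
          rw [h5, h6, Real.log_exp] at h4
          exact h4
        rw [h3, smul_zero]
      have h2 := (Filter.EventuallyEq.iteratedFDeriv ℝ h1 n).eq_of_nhds
      have h3 : (fun _ : ℝ × ℝ => (0 : ℂ)) = 0 := rfl
      rw [h2, h3, iteratedFDeriv_zero, Pi.zero_apply, norm_zero]
      positivity
  · by_cases hall : ∀ z : ℍ, c z * ((mo κ ρ (QU.tt z w') - mo κ ρ (QU.tt I w') : ℝ) : ℂ) = 0
    · exact Or.inl hall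
    · refine Or.inr ?_
      push Not at hall
      obtain ⟨z, hz⟩ := hall
      have hcz := hc.supp z (left_ne_zero_of_mul hz)
      have hmz : mo κ ρ (QU.tt z w') - mo κ ρ (QU.tt I w') ≠ 0 := by
        intro h0
        apply hz
        rw [h0, Complex.ofReal_zero, mul_zero]
      -- distances from `tt`
      have hcosh : ∀ u v : ℍ, Real.cosh (dist u v) - 1 = QU.tt u v := by
        intro u v
        rw [UpperHalfPlane.cosh_dist]
        unfold QU.tt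
        rw [Complex.dist_eq]
        ring
      have hd : ∀ (u v : ℍ) (s : ℝ), 0 ≤ s → QU.tt u v ≤ s ^ 2 / 2 → dist u v ≤ s := by
        intro u v s hs h
        rw [← hcosh] at h
        have h1 : 1 + dist u v ^ 2 / 2 ≤ Real.cosh (dist u v) := by
          have g1 : dist u v = 2 * (dist u v / 2) := by ring
          have g2 : dist u v / 2 ≤ Real.sinh (dist u v / 2) := Real.self_le_sinh_iff.2 (by positivity)
          have g3 : (dist u v / 2) ^ 2 ≤ Real.sinh (dist u v / 2) ^ 2 := pow_le_pow_left₀ (by positivity) g2 2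
          have g4 := Real.cosh_sq (dist u v / 2)
          rw [g1, Real.cosh_two_mul, g4]
          nlinarith
        have h2 : dist u v ^ 2 ≤ s ^ 2 := by linarith
        exact abs_le_of_sq_le_sq' h2 hs |>.2
      have hmo : ∀ u : ℍ, mo κ ρ (QU.tt u w') ≠ 0 → dist u w' ≤ ρ := by
        intro u hu
        apply hd u w' ρ hρ.le
        by_contra hcon
        push Not at hcon
        apply hu
        unfold mo
        rw [hκ.supp _ (by
          rw [le_div_iff₀ (by positivity)]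
          nlinarith), zero_div]
      have hIz : dist I z ≤ 2 * ρ := by
        apply hd I z _ (by positivity)
        obtain ⟨h1, h2⟩ := hcz
        have h3 : |z.re| ≤ ρ := by linarith
        have h4 : |Real.log z.im| ≤ ρ := by linarith
        have hy := z.im_pos
        have h5 : Real.exp (Real.log z.im) = z.im := Real.exp_log hy
        obtain ⟨e1, e2⟩ := MOA_exp (h4.trans hρ8)
        rw [h5] at e1 e2
        have h6 : |z.im - 1| ≤ 8 / 7 * ρ := by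
          obtain ⟨g1, g2⟩ := abs_le.1 h4
          have h7 := Real.add_one_le_exp (Real.log z.im)
          have h8 := Real.add_one_le_exp (-Real.log z.im)
          rw [h5] at h7
          rw [Real.exp_neg, h5] at h8
          have h9 : z.im * (z.im)⁻¹ = 1 := mul_inv_cancel₀ hy.ne'
          have h10 : (-Real.log z.im + 1) * z.im ≤ 1 := by
            calc (-Real.log z.im + 1) * z.im ≤ (z.im)⁻¹ * z.im := mul_le_mul_of_nonneg_right h8 hy.le
              _ = 1 := by rw [mul_comm]; exact h9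
          rw [abs_le]
          constructor
          · nlinarith
          · nlinarith
        unfold QU.tt
        have h7 : ‖((I : ℍ) : ℂ) - (z : ℂ)‖ ^ 2 = z.re ^ 2 + (z.im - 1) ^ 2 := by
          rw [← Complex.normSq_eq_norm_sq, Complex.normSq_apply]
          have g2 : (((I : ℍ) : ℂ) - (z : ℂ)).re = 0 - z.re := rfl
          have g3 : (((I : ℍ) : ℂ) - (z : ℂ)).im = 1 - z.im := rfl
          rw [g2, g3]
          ring
        have h8 : (I : ℍ).im = 1 := rfl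
        rw [h7, h8, div_le_iff₀ (by positivity)]
        have h9 : z.re ^ 2 ≤ ρ ^ 2 := by
          rw [← sq_abs]
          exact pow_le_pow_left₀ (abs_nonneg _) h3 2
        have h10 : (z.im - 1) ^ 2 ≤ (8 / 7 * ρ) ^ 2 := by
          rw [← sq_abs]
          exact pow_le_pow_left₀ (abs_nonneg _) h6 2
        nlinarith [sq_nonneg ρ]
      by_cases h1 : mo κ ρ (QU.tt z w') = 0
      · have h2 : mo κ ρ (QU.tt I w') ≠ 0 := by
          intro h2
          apply hmz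
          rw [h1, h2, sub_zero]
        have h3 := hmo I h2
        linarith
      · have h3 := hmo z h1
        have h4 := dist_triangle I z w'
        linarith

end

end Pool.Agent.RPQ
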